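import Mathlib

open MeasureTheory Filter Topology Set

namespace Run7.h501.RadSym

/-- Gluing two differentiable functions along a point. -/
lemma glue {A B A' B' F F' : ℝ → ℝ} {a : ℝ} (hA : ∀ u, HasDerivAt A (A' u) u)
    (hB : ∀ u, HasDerivAt B (B' u) u) (hF1 : ∀ u ≤ a, F u = A u) (hF2 : ∀ u, a ≤ u → F u = B u)
    (h1 : ∀ u ≤ a, F' u = A' u) (h2 : ∀ u, a ≤ u → F' u = B' u) (u : ℝ) :
    HasDerivAt F (F' u) u := by
  rcases lt_trichotomy u a with h | h | h
  · rw [h1 u h.le]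
    refine (hA u).congr_of_eventuallyEq ?_
    filter_upwards [Iio_mem_nhds h] with v hv using hF1 v (le_of_lt hv)
  · subst h
    have hl : HasDerivWithinAt F (F' u) (Iic u) u := by
      rw [h1 u le_rfl]
      exact ((hA u).hasDerivWithinAt).congr (fun v hv => hF1 v hv) (hF1 u le_rfl)
    have hr : HasDerivWithinAt F (F' u) (Ici u) u := by
      rw [h2 u le_rfl]
      exact ((hB u).hasDerivWithinAt).congr (fun v hv => hF2 v hv) (hF2 u le_rfl)
    have := hl.union hr
    rwa [Iic_union_Ici, hasDerivWithinAt_univ] at this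
  · rw [h2 u h.le]
    refine (hB u).congr_of_eventuallyEq ?_
    filter_upwards [Ioi_mem_nhds h] with v hv using hF2 v (le_of_lt hv)

/-- `m(u) = max 0 (u+1)`. -/
noncomputable def mm (u : ℝ) : ℝ := max 0 (u + 1)

lemma mm_nonneg (u : ℝ) : 0 ≤ mm u := le_max_left _ _
lemma mm_of_le {u : ℝ} (h : u ≤ -1) : mm u = 0 := max_eq_left (by linarith)
lemma mm_of_ge {u : ℝ} (h : -1 ≤ u) : mm u = u + 1 := max_eq_right (by linarith)
lemma mm_continuous : Continuous mm := by unfold mm; fun_prop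
lemma mm_lt_one {u : ℝ} (h : u < 0) : mm u < 1 := max_lt one_pos (by linarith)
lemma mm_ge (u : ℝ) : u + 1 ≤ mm u := le_max_right _ _

/-- The clamp: `c(u) = u` for `u ≤ -1` and `c(u) = -exp(-(u+1))` for `u ≥ -1`. -/
noncomputable def cl (u : ℝ) : ℝ := u - mm u + 1 - Real.exp (-(mm u))

/-- The cut-off factor: `1` for `u ≤ -1` and `(1-m²)/(1+m²)`, `m = u+1`, for `u ≥ -1`. -/
noncomputable def lm (u : ℝ) : ℝ := (1 - mm u ^ 2) / (1 + mm u ^ 2)

lemma cl_of_le {u : ℝ} (h : u ≤ -1) : cl u = u := by simp [cl, mm_of_le h]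
lemma lm_of_le {u : ℝ} (h : u ≤ -1) : lm u = 1 := by simp [lm, mm_of_le h]

lemma cl_hasDeriv (u : ℝ) : HasDerivAt cl (Real.exp (-(mm u))) u := by
  refine glue (A := fun u => u) (A' := fun _ => 1) (B := fun u => -Real.exp (-(u + 1)))
    (B' := fun u => Real.exp (-(u + 1))) (a := -1) (F' := fun u => Real.exp (-(mm u)))
    (fun u => hasDerivAt_id u) ?_ (fun u hu => cl_of_le hu) ?_ ?_ ?_ u
  · intro u
    have h1 : HasDerivAt (fun u : ℝ => -(u + 1)) (-1) u := ((hasDerivAt_id u).add_const 1).neg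
    exact (h1.exp.neg).congr_deriv (by ring)
  · intro u hu
    simp only [cl, mm_of_ge hu]; ring
  · intro u hu
    simp [mm_of_le hu]
  · intro u hu
    simp [mm_of_ge hu]

lemma lm_hasDeriv (u : ℝ) : HasDerivAt lm (-4 * mm u / (1 + mm u ^ 2) ^ 2) u := by
  refine glue (A := fun _ => 1) (A' := fun _ => 0)
    (B := fun u => (1 - (u + 1) ^ 2) / (1 + (u + 1) ^ 2))
    (B' := fun u => -4 * (u + 1) / (1 + (u + 1) ^ 2) ^ 2) (a := -1)
    (F' := fun u => -4 * mm u / (1 + mm u ^ 2) ^ 2)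
    (fun u => hasDerivAt_const u 1) ?_ (fun u hu => lm_of_le hu) ?_ ?_ ?_ u
  · intro u
    have h0 : 1 + (u + 1) ^ 2 ≠ 0 := by positivity
    have h1 : HasDerivAt (fun u : ℝ => (u + 1) ^ 2) (2 * (u + 1)) u := by
      have h := ((hasDerivAt_id u).add_const (1 : ℝ)).pow 2
      refine h.congr_deriv ?_
      simp
    have h2 : HasDerivAt (fun u : ℝ => 1 - (u + 1) ^ 2) (-(2 * (u + 1))) u := h1.const_sub 1
    have h3 : HasDerivAt (fun u : ℝ => 1 + (u + 1) ^ 2) (2 * (u + 1)) u := h1.const_add 1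
    refine (h2.div h3 h0).congr_deriv ?_
    congr 1
    ring
  · intro u hu
    simp only [lm, mm_of_ge hu]
  · intro u hu
    simp [mm_of_le hu]
  · intro u hu
    simp [mm_of_ge hu]

lemma cl_le (u : ℝ) : cl u ≤ u := by
  have := Real.add_one_le_exp (-(mm u))
  unfold cl; linarith

lemma cl_neg (u : ℝ) : cl u < 0 := by
  have h1 := Real.exp_pos (-(mm u))
  have h2 := mm_ge u
  unfold cl; linarith

lemma lm_abs_le (u : ℝ) : |lm u| ≤ 1 := by
  unfold lm
  rw [abs_div, abs_of_pos (show 0 < 1 + mm u ^ 2 by positivity), div_le_one (by positivity), abs_le]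
  constructor <;> nlinarith [sq_nonneg (mm u)]

lemma lm_pos {u : ℝ} (h : u < 0) : 0 < lm u := by
  have h1 := mm_lt_one h
  have h2 := mm_nonneg u
  unfold lm
  apply div_pos _ (by positivity)
  nlinarith

lemma lm_zero : lm 0 = 0 := by simp [lm, mm]

lemma lm'_nonpos (u : ℝ) : -4 * mm u / (1 + mm u ^ 2) ^ 2 ≤ 0 := by
  have h2 := mm_nonneg u
  apply div_nonpos_of_nonpos_of_nonneg (by linarith) (by positivity)

lemma lm'_abs_le (u : ℝ) : |-4 * mm u / (1 + mm u ^ 2) ^ 2| ≤ 4 := by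
  have h2 := mm_nonneg u
  rw [abs_div, abs_of_pos (show 0 < (1 + mm u ^ 2) ^ 2 by positivity), div_le_iff₀ (by positivity),
    abs_mul, abs_of_nonneg h2]
  simp only [abs_neg, Nat.abs_ofNat]
  nlinarith [sq_nonneg (mm u - 1), sq_nonneg (mm u ^ 2)]

/-- Data of a base nonlinearity. -/
structure Base (G G' : ℝ → ℝ) (κ C : ℝ) : Prop where
  hκ : 0 < κ
  hC : 0 < C
  deriv : ∀ u, HasDerivAt G (G' u) u
  cont' : Continuous G'
  pos : ∀ u, 0 < G u
  pos' : ∀ u, 0 < G' u
  le : ∀ u, G' u ≤ κ * G u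
  ub : ∀ u, G u ≤ C * Real.exp (κ * u)
  lim : ∀ ε > 0, ∃ U, ∀ u ≤ U, G u ≤ (1 / κ + ε) * G' u

/-- The truncated nonlinearity `g(u) = G(c(u)) λ(u)`. -/
noncomputable def gt (G : ℝ → ℝ) (u : ℝ) : ℝ := G (cl u) * lm u

/-- Its derivative. -/
noncomputable def gt' (G G' : ℝ → ℝ) (u : ℝ) : ℝ :=
  G' (cl u) * Real.exp (-(mm u)) * lm u + G (cl u) * (-4 * mm u / (1 + mm u ^ 2) ^ 2)

variable {G G' : ℝ → ℝ} {κ C : ℝ}

namespace Base

lemma hasDeriv (b : Base G G' κ C) (u : ℝ) : HasDerivAt (gt G) (gt' G G' u) u :=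
  (((b.deriv (cl u)).comp u (cl_hasDeriv u)).mul (lm_hasDeriv u))

lemma deriv_eq (b : Base G G' κ C) : _root_.deriv (gt G) = gt' G G' :=
  funext fun u => (b.hasDeriv u).deriv

lemma cl_cont : Continuous cl :=
  continuous_iff_continuousAt.2 fun u => (cl_hasDeriv u).continuousAt

lemma lm_cont : Continuous lm :=
  continuous_iff_continuousAt.2 fun u => (lm_hasDeriv u).continuousAt

lemma G_cont (b : Base G G' κ C) : Continuous G :=
  continuous_iff_continuousAt.2 fun u => (b.deriv u).continuousAt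

lemma gt_cont (b : Base G G' κ C) : Continuous (gt G) :=
  (b.G_cont.comp cl_cont).mul lm_cont

lemma gt'_cont (b : Base G G' κ C) : Continuous (gt' G G') := by
  unfold gt'
  refine (((b.cont'.comp cl_cont).mul ?_).mul lm_cont).add ((b.G_cont.comp cl_cont).mul ?_)
  · exact Real.continuous_exp.comp mm_continuous.neg
  · exact ((continuous_const.mul mm_continuous)).div (by have := mm_continuous; fun_prop)
      (fun u => by positivity)

lemma contDiff (b : Base G G' κ C) : ContDiff ℝ 1 (gt G) := by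
  rw [contDiff_one_iff_deriv]
  refine ⟨fun u => (b.hasDeriv u).differentiableAt, ?_⟩
  rw [b.deriv_eq]
  exact b.gt'_cont

lemma Gcl_le (b : Base G G' κ C) (u : ℝ) : G (cl u) ≤ C * Real.exp (κ * u) :=
  (b.ub _).trans (mul_le_mul_of_nonneg_left (Real.exp_le_exp.2
    (mul_le_mul_of_nonneg_left (cl_le u) b.hκ.le)) b.hC.le)

lemma Gcl_le' (b : Base G G' κ C) (u : ℝ) : G (cl u) ≤ C := by
  refine (b.ub _).trans ?_
  have h : Real.exp (κ * cl u) ≤ 1 := Real.exp_le_one_iff.2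
    (mul_nonpos_of_nonneg_of_nonpos b.hκ.le (cl_neg u).le)
  nlinarith [b.hC]

lemma gt_abs_le_G (b : Base G G' κ C) (u : ℝ) : |gt G u| ≤ G (cl u) := by
  unfold gt
  rw [abs_mul, abs_of_pos (b.pos _)]
  have := lm_abs_le u
  have h2 := b.pos (cl u)
  nlinarith

lemma gt'_abs_le_G (b : Base G G' κ C) (u : ℝ) : |gt' G G' u| ≤ (κ + 4) * G (cl u) := by
  unfold gt'
  have h2 := b.pos (cl u)
  have e1 : |G' (cl u) * Real.exp (-(mm u)) * lm u| ≤ κ * G (cl u) := by
    rw [abs_mul, abs_mul, abs_of_pos (b.pos' _), abs_of_pos (Real.exp_pos _)]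
    have h3 : Real.exp (-(mm u)) ≤ 1 := Real.exp_le_one_iff.2 (by linarith [mm_nonneg u])
    calc G' (cl u) * Real.exp (-(mm u)) * |lm u| ≤ G' (cl u) * 1 * 1 := by
          refine mul_le_mul (mul_le_mul_of_nonneg_left h3 (b.pos' _).le) (lm_abs_le u)
            (abs_nonneg _) ?_
          have := b.pos' (cl u); positivity
      _ ≤ κ * G (cl u) := by simpa using b.le (cl u)
  have e2 : |G (cl u) * (-4 * mm u / (1 + mm u ^ 2) ^ 2)| ≤ 4 * G (cl u) := by
    rw [abs_mul, abs_of_pos h2, mul_comm]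
    exact mul_le_mul_of_nonneg_right (lm'_abs_le u) h2.le
  calc _ ≤ _ := abs_add_le _ _
    _ ≤ κ * G (cl u) + 4 * G (cl u) := add_le_add e1 e2
    _ = _ := by ring

lemma gt_abs_le (b : Base G G' κ C) (u : ℝ) : |gt G u| ≤ C * Real.exp (κ * u) :=
  (b.gt_abs_le_G u).trans (b.Gcl_le u)

lemma bounded (b : Base G G' κ C) : ∃ K, ∀ u, |gt G u| + |_root_.deriv (gt G) u| ≤ K := by
  refine ⟨C + (κ + 4) * C, fun u => ?_⟩
  rw [b.deriv_eq]
  refine add_le_add ((b.gt_abs_le_G u).trans (b.Gcl_le' u)) ((b.gt'_abs_le_G u).trans ?_)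
  exact mul_le_mul_of_nonneg_left (b.Gcl_le' u) (by linarith [b.hκ])

lemma gt_zero : gt G 0 = 0 := by simp [gt, lm_zero]

lemma gt_pos (b : Base G G' κ C) {u : ℝ} (h : u < 0) : 0 < gt G u :=
  mul_pos (b.pos _) (lm_pos h)

lemma gt_of_le {u : ℝ} (h : u ≤ -1) : gt G u = G u := by simp [gt, cl_of_le h, lm_of_le h]

lemma gt'_of_le {u : ℝ} (h : u ≤ -1) : gt' G G' u = G' u := by
  simp [gt', cl_of_le h, lm_of_le h, mm_of_le h]

lemma gt'_le (b : Base G G' κ C) {u : ℝ} (h : u < 0) : gt' G G' u ≤ κ * gt G u := by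
  unfold gt' gt
  have h1 : G' (cl u) * Real.exp (-(mm u)) * lm u ≤ κ * (G (cl u) * lm u) := by
    have h3 : Real.exp (-(mm u)) ≤ 1 := Real.exp_le_one_iff.2 (by linarith [mm_nonneg u])
    have h4 : G' (cl u) * Real.exp (-(mm u)) ≤ κ * G (cl u) :=
      (mul_le_of_le_one_right (b.pos' _).le h3).trans (b.le _)
    calc _ ≤ κ * G (cl u) * lm u := mul_le_mul_of_nonneg_right h4 (lm_pos h).le
      _ = _ := by ring
  have h2 : G (cl u) * (-4 * mm u / (1 + mm u ^ 2) ^ 2) ≤ 0 :=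
    mul_nonpos_of_nonneg_of_nonpos (b.pos _).le (lm'_nonpos u)
  linarith

lemma gt'_lt (b : Base G G' κ C) (hs : ∀ u, G' u < κ * G u) {u : ℝ} (h : u < 0) :
    gt' G G' u < κ * gt G u := by
  unfold gt' gt
  have h1 : G' (cl u) * Real.exp (-(mm u)) * lm u < κ * (G (cl u) * lm u) := by
    have h3 : Real.exp (-(mm u)) ≤ 1 := Real.exp_le_one_iff.2 (by linarith [mm_nonneg u])
    have h4 : G' (cl u) * Real.exp (-(mm u)) < κ * G (cl u) :=
      (mul_le_of_le_one_right (b.pos' _).le h3).trans_lt (hs _)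
    calc _ < κ * G (cl u) * lm u := mul_lt_mul_of_pos_right h4 (lm_pos h)
      _ = _ := by ring
  have h2 : G (cl u) * (-4 * mm u / (1 + mm u ^ 2) ^ 2) ≤ 0 :=
    mul_nonpos_of_nonneg_of_nonpos (b.pos _).le (lm'_nonpos u)
  linarith

lemma gt_integrableOn (b : Base G G' κ C) (u : ℝ) : IntegrableOn (gt G) (Iic u) := by
  refine ((integrableOn_exp_mul_Iic b.hκ u).const_mul C).mono'
    b.gt_cont.aestronglyMeasurable.restrict (Eventually.of_forall fun v => ?_)
  exact b.gt_abs_le v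

lemma gt'_integrableOn (b : Base G G' κ C) (u : ℝ) : IntegrableOn (gt' G G') (Iic u) := by
  refine ((integrableOn_exp_mul_Iic b.hκ u).const_mul ((κ + 4) * C)).mono'
    b.gt'_cont.aestronglyMeasurable.restrict (Eventually.of_forall fun v => ?_)
  refine (b.gt'_abs_le_G v).trans ?_
  rw [mul_assoc]
  exact mul_le_mul_of_nonneg_left (b.Gcl_le v) (by linarith [b.hκ])

lemma gt_tendsto (b : Base G G' κ C) : Tendsto (gt G) atBot (𝓝 0) := by
  have h1 : Tendsto (fun u => C * Real.exp (κ * u)) atBot (𝓝 0) := by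
    have : Tendsto (fun u : ℝ => κ * u) atBot atBot := tendsto_id.const_mul_atBot b.hκ
    simpa using (Real.tendsto_exp_atBot.comp this).const_mul C
  exact squeeze_zero_norm (fun u => b.gt_abs_le u) h1

lemma integral_gt' (b : Base G G' κ C) (u : ℝ) : ∫ v in Iic u, gt' G G' v = gt G u := by
  rw [integral_Iic_of_hasDerivAt_of_tendsto' (fun x _ => b.hasDeriv x) (b.gt'_integrableOn u)
    b.gt_tendsto, sub_zero]

lemma G0_lower (b : Base G G' κ C) {u : ℝ} (hu : u < 0) :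
    gt G u ≤ κ * ∫ v in Iic u, gt G v := by
  rw [← b.integral_gt' u, ← integral_const_mul]
  refine setIntegral_mono_on (b.gt'_integrableOn u) ((b.gt_integrableOn u).const_mul κ)
    measurableSet_Iic fun v hv => b.gt'_le (lt_of_le_of_lt hv hu)

lemma G0_lower_strict (b : Base G G' κ C) (hs : ∀ u, G' u < κ * G u) {u : ℝ} (hu : u < 0) :
    gt G u < κ * ∫ v in Iic u, gt G v := by
  have h1 : 0 < ∫ v in Iic u, (κ * gt G v - gt' G G' v) := by
    rw [setIntegral_pos_iff_support_of_nonneg_ae]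
    · have : (Function.support fun v => κ * gt G v - gt' G G' v) ∩ Iic u = Iic u := by
        refine inter_eq_right.2 fun v hv => ?_
        have := b.gt'_lt hs (lt_of_le_of_lt hv hu)
        exact (sub_pos.2 this).ne'
      rw [this]
      simp
    · refine (ae_restrict_iff' measurableSet_Iic).2 (Eventually.of_forall fun v hv => ?_)
      have := b.gt'_le (lt_of_le_of_lt hv hu)
      simpa using this
    · exact ((b.gt_integrableOn u).const_mul κ).sub (b.gt'_integrableOn u)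
  rw [integral_sub ((b.gt_integrableOn u).const_mul κ) (b.gt'_integrableOn u), b.integral_gt' u,
    integral_const_mul] at h1
  linarith

lemma G0_upper (b : Base G G' κ C) {ε : ℝ} {U : ℝ}
    (hU : ∀ u ≤ U, G u ≤ (1 / κ + ε) * G' u) {u : ℝ} (hu : u ≤ min U (-1)) :
    ∫ v in Iic u, gt G v ≤ (1 / κ + ε) * gt G u := by
  rw [← b.integral_gt' u, ← integral_const_mul]
  refine setIntegral_mono_on (b.gt_integrableOn u) ((b.gt'_integrableOn u).const_mul _)
    measurableSet_Iic fun v hv => ?_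
  have h1 : v ≤ U := le_trans hv (hu.trans (min_le_left _ _))
  have h2 : v ≤ -1 := le_trans hv (hu.trans (min_le_right _ _))
  rw [gt_of_le h2, gt'_of_le h2]
  exact hU v h1

lemma G1_tendsto (b : Base G G' κ C) :
    Tendsto (fun u => (∫ v in Iic u, gt G v) / gt G u) atBot (𝓝 (1 / κ)) := by
  rw [Metric.tendsto_nhds]
  intro ε hε
  obtain ⟨U, hU⟩ := b.lim (ε / 2) (by positivity)
  filter_upwards [Iic_mem_atBot (min U (-1))] with u hu
  have hu' : u < 0 := lt_of_le_of_lt (le_trans hu (min_le_right _ _)) (by norm_num)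
  have hp := b.gt_pos hu'
  have h1 := b.G0_lower hu'
  have h2 := b.G0_upper hU hu
  rw [Real.dist_eq, abs_lt]
  constructor
  · have : 1 / κ ≤ (∫ v in Iic u, gt G v) / gt G u := by
      rw [div_le_div_iff₀ b.hκ hp]; linarith
    linarith
  · have : (∫ v in Iic u, gt G v) / gt G u ≤ 1 / κ + ε / 2 := by
      rw [div_le_iff₀ hp]; linarith
    linarith

lemma gt'_nonpos (b : Base G G' κ C) {u : ℝ} (h1 : -(1 / (1 + κ)) ≤ u) (h2 : u ≤ 0) :
    gt' G G' u ≤ 0 := by
  have hκ := b.hκ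
  have hd : 1 / (1 + κ) < 1 := by rw [div_lt_one (by positivity)]; linarith
  have hm : mm u = u + 1 := mm_of_ge (by linarith)
  set m := mm u with hmdef
  have hm0 : 1 - 1 / (1 + κ) ≤ m := by linarith
  have hmp : 0 < m := by linarith
  have hm1 : m ≤ 1 := by linarith
  have hkey : κ * (1 - m ^ 2) * (1 + m ^ 2) ≤ 4 * m := by
    have e1 : (1 - m ^ 2) * (1 + m ^ 2) ≤ 4 * (1 - m) := by
      have : (1 - m ^ 2) * (1 + m ^ 2) = (1 - m) * ((1 + m) * (1 + m ^ 2)) := by ring
      rw [this]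
      have h4 : (1 + m) * (1 + m ^ 2) ≤ 4 := by nlinarith
      nlinarith
    have e2 : κ * (1 - m) ≤ m := by
      have h5 : κ * (1 / (1 + κ)) = 1 - 1 / (1 + κ) := by field_simp; ring
      have h6 : κ * (1 - m) ≤ κ * (1 / (1 + κ)) := mul_le_mul_of_nonneg_left (by linarith) hκ.le
      linarith
    nlinarith
  have hlm : 0 ≤ lm u := by
    unfold lm
    rw [← hmdef]
    exact div_nonneg (by nlinarith) (by positivity)
  unfold gt'
  rw [← hmdef]
  have h3 : Real.exp (-m) ≤ 1 := Real.exp_le_one_iff.2 (by linarith)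
  have h4 : G' (cl u) * Real.exp (-m) ≤ κ * G (cl u) :=
    (mul_le_of_le_one_right (b.pos' _).le h3).trans (b.le _)
  have h5 : G' (cl u) * Real.exp (-m) * lm u ≤ κ * G (cl u) * lm u :=
    mul_le_mul_of_nonneg_right h4 hlm
  have h6 : κ * lm u + (-4 * m / (1 + m ^ 2) ^ 2) ≤ 0 := by
    unfold lm
    rw [← hmdef]
    have e : κ * ((1 - m ^ 2) / (1 + m ^ 2)) + (-4 * m / (1 + m ^ 2) ^ 2)
        = (κ * (1 - m ^ 2) * (1 + m ^ 2) - 4 * m) / (1 + m ^ 2) ^ 2 := by
      field_simp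
      ring
    rw [e]
    exact div_nonpos_of_nonpos_of_nonneg (by linarith) (by positivity)
  have h7 := b.pos (cl u)
  nlinarith

end Base

end Run7.h501.RadSym
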