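import Pool.Agent.Run7.h501.RadSym.Defs
import Pool.Agent.Run7.h501.RadSym.Cut

open MeasureTheory Filter Topology Set

namespace Run7.h501.RadSym

variable {G G' : ℝ → ℝ} {κ C A θ : ℝ}

lemma Base.lower (b : Base G G' κ C) {u : ℝ} (hu : u ≤ 0) : G 0 * Real.exp (κ * u) ≤ G u := by
  have h1 : Antitone (fun u => G u * Real.exp (-(κ * u))) := by
    have hd : ∀ u, HasDerivAt (fun u => G u * Real.exp (-(κ * u)))
        (G' u * Real.exp (-(κ * u)) + G u * (Real.exp (-(κ * u)) * (-κ))) u := by
      intro u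
      have h2 : HasDerivAt (fun u : ℝ => -(κ * u)) (-κ) u :=
        (((hasDerivAt_id u).const_mul κ).neg).congr_deriv (by simp)
      exact (b.deriv u).mul h2.exp
    refine antitone_of_deriv_nonpos (fun u => (hd u).differentiableAt) fun u => ?_
    rw [(hd u).deriv]
    have h3 := b.le u
    have h4 := Real.exp_pos (-(κ * u))
    nlinarith
  have h2 := h1 hu
  simp only [mul_zero, neg_zero, Real.exp_zero, mul_one] at h2
  have h3 : Real.exp (-(κ * u)) * Real.exp (κ * u) = 1 := by rw [← Real.exp_add]; simp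
  have h4 := Real.exp_pos (κ * u)
  calc G 0 * Real.exp (κ * u) ≤ G u * Real.exp (-(κ * u)) * Real.exp (κ * u) :=
        mul_le_mul_of_nonneg_right h2 h4.le
    _ = G u := by rw [mul_assoc, h3, mul_one]

lemma Base.int_of_gt (b : Base G G' κ C) (hA : 0 < A) {M : ℝ} (h : θ < κ * M) :
    IntegrableOn (fun t => A * Real.exp (θ * t) * gt G (-M * t)) (Ioi 0) := by
  refine ((exp_neg_integrableOn_Ioi 0 (show 0 < κ * M - θ by linarith)).const_mul (A * C)).mono'
    ?_ (Eventually.of_forall fun t => ?_)
  · have h1 := b.gt_cont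
    refine (Continuous.mul (by fun_prop) (h1.comp (by fun_prop))).aestronglyMeasurable.restrict
  · rw [norm_mul, Real.norm_of_nonneg (by positivity), Real.norm_eq_abs]
    have h1 := b.gt_abs_le (-M * t)
    calc A * Real.exp (θ * t) * |gt G (-M * t)|
        ≤ A * Real.exp (θ * t) * (C * Real.exp (κ * (-M * t))) :=
          mul_le_mul_of_nonneg_left h1 (by positivity)
      _ = A * C * Real.exp (-(κ * M - θ) * t) := by
          have : -(κ * M - θ) * t = θ * t + κ * (-M * t) := by ring
          rw [this, Real.exp_add]; ring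

lemma Base.not_int_of_le (b : Base G G' κ C) (hA : 0 < A) {M : ℝ} (hM : 0 < M) (h : κ * M ≤ θ) :
    ¬ IntegrableOn (fun t => A * Real.exp (θ * t) * gt G (-M * t)) (Ioi 0) := by
  intro hi
  have h1 : IntegrableOn (fun t => A * Real.exp (θ * t) * gt G (-M * t)) (Ioi (1 / M)) :=
    hi.mono_set (Ioi_subset_Ioi (by positivity))
  have h2 : IntegrableOn (fun _ : ℝ => A * G 0) (Ioi (1 / M)) := by
    refine h1.mono' aestronglyMeasurable_const ?_
    refine (ae_restrict_iff' measurableSet_Ioi).2 (Eventually.of_forall fun t ht => ?_)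
    have ht' : 1 / M < t := ht
    have ht0 : 0 < t := lt_trans (by positivity) ht'
    have h3 : -M * t ≤ -1 := by
      rw [div_lt_iff₀ hM] at ht'
      linarith
    rw [gt_of_le' h3, Real.norm_of_nonneg (mul_pos hA (b.pos 0)).le]
    have h4 := b.lower (show -M * t ≤ 0 by linarith)
    have h5 : 1 ≤ Real.exp (θ * t) * Real.exp (κ * (-M * t)) := by
      rw [← Real.exp_add]
      apply Real.one_le_exp
      have : θ * t + κ * (-M * t) = (θ - κ * M) * t := by ring
      rw [this]
      exact mul_nonneg (by linarith) ht0.le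
    have h6 := b.pos 0
    have h7 := Real.exp_pos (θ * t)
    calc A * G 0 ≤ A * G 0 * (Real.exp (θ * t) * Real.exp (κ * (-M * t))) :=
          le_mul_of_one_le_right (mul_pos hA h6).le h5
      _ = A * Real.exp (θ * t) * (G 0 * Real.exp (κ * (-M * t))) := by ring
      _ ≤ A * Real.exp (θ * t) * G (-M * t) := mul_le_mul_of_nonneg_left h4 (by positivity)
  rw [integrableOn_const_iff] at h2
  rcases h2 with h2 | h2
  · exact (mul_pos hA (b.pos 0)).ne' (by simpa using h2)
  · simp at h2
where
  gt_of_le' {u : ℝ} (h : u ≤ -1) : gt G u = G u := by simp [gt, cl_of_le h, lm_of_le h]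

/-- The hypotheses hold for `f(t) = A e^{θt}` and `g` a truncated base nonlinearity. -/
theorem hyp_of_base (b : Base G G' κ C) (hA : 0 < A) (hθ : 0 < θ) {p q : ℝ → ℝ}
    (hp : fOf p = fun t => A * Real.exp (θ * t)) (hq : gOf q = gt G) : Hyp p q := by
  have hfd : ∀ t, HasDerivAt (fun t : ℝ => A * Real.exp (θ * t)) (θ * (A * Real.exp (θ * t))) t := by
    intro t
    have h2 : HasDerivAt (fun t : ℝ => θ * t) θ t := by
      simpa using (hasDerivAt_id t).const_mul θ
    exact (h2.exp.const_mul A).congr_deriv (by ring)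
  have hκ := b.hκ
  have hM0 : M0 p q = θ / κ := by
    unfold M0
    rw [hp, hq]
    have : {M : ℝ | 0 < M ∧ IntegrableOn (fun t => A * Real.exp (θ * t) * gt G (-M * t)) (Ioi 0)}
        = Ioi (θ / κ) := by
      ext M
      simp only [mem_ofPred_eq, mem_Ioi]
      constructor
      · rintro ⟨h1, h2⟩
        by_contra h3
        refine b.not_int_of_le hA h1 ?_ h2
        rw [not_lt, le_div_iff₀ hκ] at h3
        linarith
      · intro h1
        have h2 : 0 < M := lt_trans (by positivity) h1
        refine ⟨h2, b.int_of_gt hA ?_⟩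
        rw [div_lt_iff₀ hκ] at h1
        linarith
    rw [this, csInf_Ioi]
  refine ⟨?_, ?_, ?_, ?_, ?_, ?_, ?_, ?_, ?_, ?_, ?_, ?_, ?_, ?_, ?_⟩
  · rw [hp]; fun_prop
  · rw [hq]; exact b.contDiff
  · rw [hp]
    -- |t A e^{θ t}| ≤ (A/θ)·2 e^{θ t/2}
    refine ((integrableOn_exp_mul_Iic (show 0 < θ / 2 by positivity) 0).const_mul
      (2 * A / θ)).mono' (by fun_prop) ?_
    refine (ae_restrict_iff' measurableSet_Iic).2 (Eventually.of_forall fun t ht => ?_)
    have ht' : t ≤ 0 := ht
    rw [Real.norm_eq_abs, abs_abs, abs_mul, abs_of_nonpos ht', abs_of_pos (by positivity)]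
    have h1 : Real.exp (θ * t) = Real.exp (θ / 2 * t) * Real.exp (θ / 2 * t) := by
      rw [← Real.exp_add]; ring_nf
    have h2 : -(θ / 2 * t) * Real.exp (θ / 2 * t) ≤ 1 := by
      have h3 := Real.add_one_le_exp (-(θ / 2 * t))
      have h4 : Real.exp (-(θ / 2 * t)) * Real.exp (θ / 2 * t) = 1 := by
        rw [← Real.exp_add]; simp
      have h5 := Real.exp_pos (θ / 2 * t)
      calc -(θ / 2 * t) * Real.exp (θ / 2 * t)
          ≤ Real.exp (-(θ / 2 * t)) * Real.exp (θ / 2 * t) :=
            mul_le_mul_of_nonneg_right (by linarith) h5.le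
        _ = 1 := h4
    have h6 : -t * (A * Real.exp (θ * t))
        = 2 * A / θ * Real.exp (θ / 2 * t) * (-(θ / 2 * t) * Real.exp (θ / 2 * t)) := by
      rw [h1]; field_simp
    rw [h6]
    exact mul_le_of_le_one_right (by positivity) h2
  · rw [hq]; exact b.bounded
  · intro t; rw [hp]; positivity
  · rw [hp]
    have : Tendsto (fun t : ℝ => θ * t) atTop atTop := tendsto_id.const_mul_atTop hθ
    exact (Real.tendsto_exp_atTop.comp this).const_mul_atTop hA
  · rw [hq]; exact Base.gt_zero
  · intro u hu; rw [hq]; exact b.gt_pos hu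
  · intro t
    rw [hp, (hfd t).deriv]; positivity
  · refine ⟨θ / κ + 1, by positivity, ?_, ?_⟩
    · intro u hu
      have h1 : u ≤ -1 := by
        have : 0 < θ / κ := by positivity
        linarith
      rw [hq, b.deriv_eq, Base.gt'_of_le h1]
      exact b.pos' u
    · rw [hp, hq]
      refine b.int_of_gt hA ?_
      have : κ * (θ / κ + 1) = θ + κ := by field_simp
      linarith
  · rw [hM0, hp, hq]
    refine b.not_int_of_le hA (by positivity) ?_
    rw [mul_div_cancel₀ _ hκ.ne']
  · intro c hc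
    refine ⟨Real.exp (-(θ * c)), Real.exp_pos _, fun t _ => ?_⟩
    rw [hp]
    have h1 : A * Real.exp (θ * (t - c)) = Real.exp (-(θ * c)) * (A * Real.exp (θ * t)) := by
      have : θ * (t - c) = -(θ * c) + θ * t := by ring
      rw [this, Real.exp_add]; ring
    simp only
    rw [h1, mul_div_cancel_right₀ _ (by positivity)]
  · intro u; rw [hq]; exact b.gt_integrableOn u
  · have hF : F1 p = fun _ => θ := by
      funext t
      unfold F1
      rw [hp, (hfd t).deriv]
      have : A * Real.exp (θ * t) ≠ 0 := by positivity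
      field_simp
    have hG : G1 q = fun u => (∫ v in Iic u, gt G v) / gt G u := by
      funext u; unfold G1 G0; rw [hq]
    refine ⟨θ, 1 / κ, ?_, ?_, ?_, ?_⟩
    · rw [hF]; exact tendsto_const_nhds
    · rw [hG]; exact b.G1_tendsto
    · intro t; rw [hF]
    · intro u hu
      rw [hG]
      have h1 := b.G0_lower hu
      simp only
      rw [div_le_div_iff₀ hκ (b.gt_pos hu)]
      linarith
  · refine ⟨1 / (1 + κ), by positivity, fun u hu => ?_⟩
    rw [hq, b.deriv_eq]
    exact b.gt'_nonpos hu.1 hu.2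

/-- Under a strict inequality for the base nonlinearity, (H7) for `G₁` is strict. -/
theorem strict_of_base (b : Base G G' κ C) (hs : ∀ u, G' u < κ * G u) {q : ℝ → ℝ}
    (hq : gOf q = gt G) : ∃ g₁ : ℝ, Tendsto (G1 q) atBot (𝓝 g₁) ∧ ∀ u < 0, g₁ < G1 q u := by
  have hG : G1 q = fun u => (∫ v in Iic u, gt G v) / gt G u := by
    funext u; unfold G1 G0; rw [hq]
  refine ⟨1 / κ, by rw [hG]; exact b.G1_tendsto, fun u hu => ?_⟩
  rw [hG]
  have h1 := b.G0_lower_strict hs hu
  simp only
  rw [div_lt_div_iff₀ b.hκ (b.gt_pos hu)]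
  linarith

end Run7.h501.RadSym
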