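import Mathlib

open MeasureTheory Filter Topology Set InnerProductSpace
open scoped Laplacian ContDiff

namespace Run7.h501.RadSym

/-- `f(t) = e^{2t} p(e^t)`. -/
noncomputable def fOf (p : ℝ → ℝ) (t : ℝ) : ℝ := Real.exp (2 * t) * p (Real.exp t)

/-- `g(u) = q(e^u)`. -/
noncomputable def gOf (q : ℝ → ℝ) (u : ℝ) : ℝ := q (Real.exp u)

/-- `M₀`, the infimum of the `M > 0` for which `∫_0^∞ f(t) g(-Mt) dt` converges. -/
noncomputable def M0 (p q : ℝ → ℝ) : ℝ :=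
  sInf {M : ℝ | 0 < M ∧ IntegrableOn (fun t => fOf p t * gOf q (-M * t)) (Ioi 0)}

/-- `F₁ = f'/f`. -/
noncomputable def F1 (p : ℝ → ℝ) (t : ℝ) : ℝ := deriv (fOf p) t / fOf p t

/-- `G₀(u) = ∫_{-∞}^u g`. -/
noncomputable def G0 (q : ℝ → ℝ) (u : ℝ) : ℝ := ∫ v in Iic u, gOf q v

/-- `G₁ = G₀/g`. -/
noncomputable def G1 (q : ℝ → ℝ) (u : ℝ) : ℝ := G0 q u / gOf q u

/-- The hypotheses (H1)-(H8) of the problem on `p` and `q`
(only the values on `(0,∞)` of `p` and `q` enter). -/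
structure Hyp (p q : ℝ → ℝ) : Prop where
  /-- (H1), smoothness of `f` -/
  h1f : ContDiff ℝ 1 (fOf p)
  /-- (H1), smoothness of `g` -/
  h1g : ContDiff ℝ 1 (gOf q)
  /-- (H1), integrability of `t f(t)` at `-∞` -/
  h1i : IntegrableOn (fun t => |t * fOf p t|) (Iic 0)
  /-- (H1), boundedness of `g` and `g'` -/
  h1b : ∃ K, ∀ u, |gOf q u| + |deriv (gOf q) u| ≤ K
  /-- (H2) -/
  h2f : ∀ t, 0 < fOf p t
  /-- (H2) -/
  h2t : Tendsto (fOf p) atTop atTop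
  /-- (H2) -/
  h2z : gOf q 0 = 0
  /-- (H2) -/
  h2g : ∀ u < 0, 0 < gOf q u
  /-- (H3) -/
  h3 : ∀ t, 0 ≤ deriv (fOf p) t
  /-- (H4) -/
  h4 : ∃ M > 0, (∀ u < -M, 0 < deriv (gOf q) u) ∧
    IntegrableOn (fun t => fOf p t * gOf q (-M * t)) (Ioi 0)
  /-- (H5), divergence of the integral at `M₀` -/
  h5a : ¬ IntegrableOn (fun t => fOf p t * gOf q (-(M0 p q) * t)) (Ioi 0)
  /-- (H5), `inf_{t>0} f(t-c)/f(t) > 0` for every `c > 0` -/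
  h5b : ∀ c > 0, ∃ ε > 0, ∀ t > 0, ε ≤ fOf p (t - c) / fOf p t
  /-- (H6), `G₀` is well defined -/
  h6i : ∀ u, IntegrableOn (gOf q) (Iic u)
  /-- (H6) and (H7): the limits `f₁`, `g₁` exist and are lower bounds -/
  h67 : ∃ f₁ g₁ : ℝ, Tendsto (F1 p) atTop (𝓝 f₁) ∧ Tendsto (G1 q) atBot (𝓝 g₁) ∧
    (∀ t, f₁ ≤ F1 p t) ∧ ∀ u < 0, g₁ ≤ G1 q u
  /-- (H8) -/
  h8 : ∃ δ > 0, ∀ u ∈ Icc (-δ) 0, deriv (gOf q) u ≤ 0

/-- `u` is a solution, in the sense of distributions on `ℝ² = ℂ`, of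
`Δu + p(|x|) q(e^u) = 4πN δ₀`: `u` is locally integrable on `ℂ` and smooth on `ℂ \ {0}`, the
nonlinear term is locally integrable, and the equation holds against every test function. -/
def IsSolution (N : ℝ) (p q : ℝ → ℝ) (u : ℂ → ℝ) : Prop :=
  LocallyIntegrable u ∧ ContDiffOn ℝ ∞ u {0}ᶜ ∧
  LocallyIntegrable (fun x : ℂ => p ‖x‖ * q (Real.exp (u x))) ∧
  ∀ φ : ℂ → ℝ, ContDiff ℝ ∞ φ → HasCompactSupport φ →
    (∫ x : ℂ, u x * Δ φ x) + (∫ x : ℂ, p ‖x‖ * q (Real.exp (u x)) * φ x)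
      = 4 * Real.pi * N * φ 0

end Run7.h501.RadSym
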