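import Pool.Agent.Run7.h501.RadSym.Lap

open MeasureTheory Filter Topology Set InnerProductSpace
open scoped Laplacian ContDiff ComplexConjugate Real

namespace Run7.h501.RadSym

/-- The kernel `2/(1+r²)²`. -/
noncomputable def ker (r : ℝ) : ℝ := 2 / (1 + r ^ 2) ^ 2

lemma ker_hasDeriv (y : ℝ) : HasDerivAt (fun y : ℝ => -(1 + y ^ 2)⁻¹) (y * ker y) y := by
  have h0 : (1 + y ^ 2) ≠ 0 := by positivity
  have h1 : HasDerivAt (fun y : ℝ => 1 + y ^ 2) (2 * y) y := by
    simpa using ((hasDerivAt_id y).pow 2).const_add 1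
  have h2 := (h1.inv h0).neg
  refine h2.congr_deriv ?_
  unfold ker
  field_simp

lemma ker_tendsto : Tendsto (fun y : ℝ => -(1 + y ^ 2)⁻¹) atTop (𝓝 0) := by
  have h1 : Tendsto (fun y : ℝ => 1 + y ^ 2) atTop atTop :=
    tendsto_atTop_add_const_left _ _ (tendsto_pow_atTop (by norm_num))
  simpa using h1.inv_tendsto_atTop.neg

lemma ker_integrableOn : IntegrableOn (fun y : ℝ => y * ker y) (Ioi 0) :=
  integrableOn_Ioi_deriv_of_nonneg' (fun y _ => ker_hasDeriv y)
    (fun y hy => mul_nonneg (le_of_lt hy) (by unfold ker; positivity)) ker_tendsto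

lemma ker_integral : ∫ y in Ioi (0:ℝ), y * ker y = 1 := by
  rw [integral_Ioi_of_hasDerivAt_of_nonneg' (fun y _ => ker_hasDeriv y)
    (fun y hy => mul_nonneg (le_of_lt hy) (by unfold ker; positivity)) ker_tendsto]
  norm_num

lemma ker_integrable : Integrable (fun x : ℂ => ker ‖x‖) := by
  rw [integrable_fun_norm_addHaar (μ := (volume : Measure ℂ)) (f := ker)]
  simpa [Complex.finrank_real_complex] using ker_integrableOn

lemma ker_integral_complex : ∫ x : ℂ, ker ‖x‖ = 2 * π := by
  rw [integral_fun_norm_addHaar (μ := (volume : Measure ℂ)) (f := ker)]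
  have h1 : (volume : Measure ℂ).real (Metric.ball 0 1) = π := by
    rw [measureReal_def, Complex.volume_ball]
    simp [NNReal.coe_real_pi]
  rw [h1]
  simp [Complex.finrank_real_complex, ker_integral]

lemma log_norm_locallyIntegrable : LocallyIntegrable (fun x : ℂ => Real.log ‖x‖) := by
  intro x
  refine ⟨Metric.ball 0 (‖x‖ + 1), Metric.isOpen_ball.mem_nhds (by simp), ?_⟩
  rw [integrableOn_fun_norm_addHaar (μ := (volume : Measure ℂ)) (f := Real.log)]
  simp only [Complex.finrank_real_complex, Nat.reduceSub, pow_one, smul_eq_mul]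
  exact (Real.continuous_mul_log.integrableOn_Icc (a := 0) (b := ‖x‖ + 1)).mono_set Ioo_subset_Icc_self

/-- regularised logarithm -/
noncomputable def wreg (ε : ℝ) (x : ℂ) : ℝ := (1 / 2) * Real.log (ε + Complex.normSq x)

lemma contDiff_normSq {n : WithTop ℕ∞} : ContDiff ℝ n (fun z : ℂ => Complex.normSq z) := by
  have : (fun z : ℂ => Complex.normSq z) = fun z : ℂ => ‖z‖ ^ 2 := by
    funext z; rw [Complex.sq_norm]
  rw [this]
  exact contDiff_norm_sq ℝ

lemma wreg_contDiff {ε : ℝ} (hε : 0 < ε) {n : WithTop ℕ∞} : ContDiff ℝ n (wreg ε) := by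
  unfold wreg
  refine contDiff_const.mul (ContDiff.log (contDiff_const.add contDiff_normSq) ?_)
  intro x
  have := Complex.normSq_nonneg x
  positivity

lemma wreg_laplacian {ε : ℝ} (hε : 0 < ε) (x : ℂ) :
    Δ (wreg ε) x = 2 * ε / (ε + ‖x‖ ^ 2) ^ 2 := by
  have h := laplacian_comp_normSq (F := fun z => z) (F' := fun _ => 1) (F'' := fun _ => 0)
    (fun z => hasDerivAt_id z) (fun z => hasDerivAt_const z 1)
    (h := fun ρ => (1 / 2) * Real.log (ε + ρ)) (h' := fun ρ => (1 / 2) * (1 / (ε + ρ)))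
    (h'' := fun ρ => (1 / 2) * (-1 / (ε + ρ) ^ 2)) ?_ ?_ (wreg_contDiff hε) x
  · have e : wreg ε = fun z => (fun ρ => (1 / 2) * Real.log (ε + ρ)) (Complex.normSq z) := rfl
    rw [e, h, Complex.sq_norm]
    have h0 : (ε + Complex.normSq x) ≠ 0 := by
      have := Complex.normSq_nonneg x
      positivity
    simp only [map_one]
    field_simp
    ring
  · intro ρ hρ
    have h0 : ε + ρ ≠ 0 := by positivity
    have h1 : HasDerivAt (fun ρ : ℝ => ε + ρ) 1 ρ := (hasDerivAt_id ρ).const_add ε
    exact (h1.log h0).const_mul (1 / 2)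
  · intro ρ hρ
    have h0 : ε + ρ ≠ 0 := by positivity
    have h1 : HasDerivAt (fun ρ : ℝ => ε + ρ) 1 ρ := (hasDerivAt_id ρ).const_add ε
    have h2 : HasDerivAt (fun ρ : ℝ => (ε + ρ)⁻¹) (-1 / (ε + ρ) ^ 2) ρ := h1.inv h0
    have h3 := h2.const_mul (1 / 2)
    have e : (fun ρ => (1 / 2) * (1 / (ε + ρ))) = fun ρ : ℝ => (1 / 2) * (ε + ρ)⁻¹ := by
      funext ρ; rw [one_div (ε + ρ)]
    rw [e]
    exact h3

lemma log_test_reg {φ : ℂ → ℝ} (hφ : ContDiff ℝ 2 φ) (hc : HasCompactSupport φ) {δ : ℝ}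
    (hδ : 0 < δ) :
    ∫ x, wreg (δ ^ 2) x * Δ φ x = ∫ y : ℂ, ker ‖y‖ * φ (δ • y) := by
  rw [integral_mul_laplacian (wreg_contDiff (by positivity)) hφ hc]
  have h1 := Measure.integral_comp_smul (volume : Measure ℂ)
    (fun x : ℂ => Δ (wreg (δ ^ 2)) x * φ x) δ
  rw [Complex.finrank_real_complex] at h1
  have h2 : (∫ x : ℂ, Δ (wreg (δ ^ 2)) x * φ x)
      = δ ^ 2 * ∫ x : ℂ, Δ (wreg (δ ^ 2)) (δ • x) * φ (δ • x) := by
    rw [h1, abs_of_pos (by positivity), smul_eq_mul]
    field_simp
  rw [h2, ← integral_const_mul]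
  refine integral_congr_ae (Eventually.of_forall fun y => ?_)
  simp only [wreg_laplacian (show 0 < δ ^ 2 by positivity), norm_smul, Real.norm_eq_abs,
    abs_of_pos hδ, ker]
  have h0 : 1 + ‖y‖ ^ 2 ≠ 0 := by positivity
  have h3 : δ ^ 2 + (δ * ‖y‖) ^ 2 = δ ^ 2 * (1 + ‖y‖ ^ 2) := by ring
  rw [h3]
  field_simp

lemma laplacian_continuous {φ : ℂ → ℝ} (hφ : ContDiff ℝ 2 φ) : Continuous (Δ φ) := by
  have : Δ φ = fun x => fderiv ℝ (fun y => fderiv ℝ φ y 1) x 1
    + fderiv ℝ (fun y => fderiv ℝ φ y Complex.I) x Complex.I := by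
    funext x; exact laplacian_eq_dir hφ x
  rw [this]
  have keyφ : ∀ v : ℂ, ContDiff ℝ 1 (fun y => fderiv ℝ φ y v) := fun v =>
    (hφ.fderiv_right (m := 1) (by norm_num)).clm_apply contDiff_const
  exact (((keyφ 1).continuous_fderiv (by norm_num)).clm_apply continuous_const).add
    (((keyφ Complex.I).continuous_fderiv (by norm_num)).clm_apply continuous_const)

lemma laplacian_hasCompactSupport {φ : ℂ → ℝ} (hc : HasCompactSupport φ) :
    HasCompactSupport (Δ φ) := by
  refine hc.of_isClosed_subset isClosed_closure (closure_minimal ?_ isClosed_closure)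
  intro x hx
  by_contra hx'
  apply hx
  have h1 : φ =ᶠ[𝓝 x] fun _ => 0 := notMem_tsupport_iff_eventuallyEq.1 hx'
  have h2 := (laplacian_congr_nhds h1).self_of_nhds
  rw [h2]
  simp

/-- `(1/2π) log |x|` is the fundamental solution of the Laplacian on `ℝ²`. -/
theorem log_test {φ : ℂ → ℝ} (hφ : ContDiff ℝ 2 φ) (hc : HasCompactSupport φ) :
    ∫ x : ℂ, Real.log ‖x‖ * Δ φ x = 2 * π * φ 0 := by
  have hΔc : Continuous (Δ φ) := laplacian_continuous hφ
  have hΔs : HasCompactSupport (Δ φ) := laplacian_hasCompactSupport hc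
  -- the sequence δ_n = 1/(n+1)
  let δ : ℕ → ℝ := fun n => 1 / ((n : ℝ) + 1)
  have hδ : ∀ n, 0 < δ n := fun n => by positivity
  have hδ1 : ∀ n, δ n ≤ 1 := fun n => by
    rw [div_le_one (by positivity)]; linarith [(Nat.cast_nonneg n : (0:ℝ) ≤ n)]
  have hδt : Tendsto δ atTop (𝓝 0) := tendsto_one_div_add_atTop_nhds_zero_nat
  have hne : ∀ᵐ x : ℂ, x ≠ 0 := by simp [ae_iff]
  have L : Tendsto (fun n => ∫ x : ℂ, wreg (δ n ^ 2) x * Δ φ x) atTop
      (𝓝 (∫ x : ℂ, Real.log ‖x‖ * Δ φ x)) := by
    refine tendsto_integral_of_dominated_convergence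
      (fun x => ‖Real.log ‖x‖ • Δ φ x‖ + ‖(1 / 2) * Real.log (1 + Complex.normSq x) * Δ φ x‖)
      ?_ ?_ ?_ ?_
    · intro n
      exact ((wreg_contDiff (n := 0) (by have := hδ n; positivity)).continuous.mul
        hΔc).aestronglyMeasurable
    · refine (log_norm_locallyIntegrable.integrable_smul_right_of_hasCompactSupport hΔc hΔs).norm.add ?_
      exact (((wreg_contDiff (ε := 1) (n := 0) one_pos).continuous.mul
        hΔc).integrable_of_hasCompactSupport hΔs.mul_left).norm
    · intro n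
      refine hne.mono fun x hx => ?_
      have hx2 : 0 < Complex.normSq x := Complex.normSq_pos.2 hx
      have hlog : Real.log ‖x‖ = (1 / 2) * Real.log (Complex.normSq x) := by
        rw [← Complex.sq_norm, Real.log_pow]; push_cast; ring
      have hd2 : 0 < δ n ^ 2 := by have := hδ n; positivity
      have hd3 : δ n ^ 2 ≤ 1 := pow_le_one₀ (hδ n).le (hδ1 n)
      have lo : (1 / 2) * Real.log (Complex.normSq x) ≤ wreg (δ n ^ 2) x := by
        unfold wreg
        exact mul_le_mul_of_nonneg_left (Real.log_le_log hx2 (by linarith)) (by norm_num)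
      have hi : wreg (δ n ^ 2) x ≤ (1 / 2) * Real.log (1 + Complex.normSq x) := by
        unfold wreg
        exact mul_le_mul_of_nonneg_left (Real.log_le_log (by linarith) (by linarith)) (by norm_num)
      have hb : |wreg (δ n ^ 2) x| ≤ |Real.log ‖x‖| + |(1 / 2) * Real.log (1 + Complex.normSq x)| := by
        rw [abs_le]
        constructor
        · have h1 := neg_abs_le (Real.log ‖x‖)
          have h2 := abs_nonneg ((1 / 2) * Real.log (1 + Complex.normSq x))
          rw [hlog] at h1 ⊢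
          linarith
        · have h1 := le_abs_self ((1 / 2) * Real.log (1 + Complex.normSq x))
          have h2 := abs_nonneg (Real.log ‖x‖)
          linarith
      rw [norm_mul, norm_smul, norm_mul (_ * _), ← add_mul]
      exact mul_le_mul_of_nonneg_right hb (norm_nonneg _)
    · refine hne.mono fun x hx => ?_
      have hx2 : 0 < Complex.normSq x := Complex.normSq_pos.2 hx
      have hlog : Real.log ‖x‖ = (1 / 2) * Real.log (0 ^ 2 + Complex.normSq x) := by
        rw [← Complex.sq_norm, zero_pow (by norm_num), zero_add, Real.log_pow]; push_cast; ring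
      refine Tendsto.mul_const _ ?_
      rw [hlog]
      unfold wreg
      refine Tendsto.const_mul _ ?_
      refine Tendsto.log ?_ (by positivity)
      exact (hδt.pow 2).add_const _
  have R : Tendsto (fun n => ∫ y : ℂ, ker ‖y‖ * φ (δ n • y)) atTop
      (𝓝 (∫ y : ℂ, ker ‖y‖ * φ 0)) := by
    obtain ⟨C, hC⟩ := hφ.continuous.bounded_above_of_compact_support hc
    refine tendsto_integral_of_dominated_convergence (fun y => ker ‖y‖ * C) ?_ ?_ ?_ ?_
    · intro n
      refine (Continuous.mul ?_ ?_).aestronglyMeasurable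
      · unfold ker
        exact continuous_const.div (by fun_prop) (fun y => by positivity)
      · exact hφ.continuous.comp (continuous_const_smul _)
    · exact ker_integrable.mul_const C
    · intro n
      refine Eventually.of_forall fun y => ?_
      rw [norm_mul, Real.norm_of_nonneg (by unfold ker; positivity)]
      exact mul_le_mul_of_nonneg_left (hC _) (by unfold ker; positivity)
    · refine Eventually.of_forall fun y => ?_
      refine Tendsto.const_mul _ ?_
      have : Tendsto (fun n => δ n • y) atTop (𝓝 ((0:ℝ) • y)) := hδt.smul_const y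
      rw [zero_smul] at this
      exact (hφ.continuous.tendsto 0).comp this
  have e : (fun n => ∫ x : ℂ, wreg (δ n ^ 2) x * Δ φ x) = fun n => ∫ y : ℂ, ker ‖y‖ * φ (δ n • y) :=
    funext fun n => log_test_reg hφ hc (hδ n)
  rw [e] at L
  rw [tendsto_nhds_unique L R, integral_mul_const, ker_integral_complex]

end Run7.h501.RadSym
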