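import Mathlib

open MeasureTheory Filter Topology Set InnerProductSpace
open scoped Laplacian ContDiff ComplexConjugate

namespace Run7.h501.RadSym

/-- The Laplacian on `ℂ = ℝ²` as a sum of two second directional derivatives. -/
lemma laplacian_eq_dir {f : ℂ → ℝ} (hf : ContDiff ℝ 2 f) (x : ℂ) :
    Δ f x = fderiv ℝ (fun y => fderiv ℝ f y 1) x 1
      + fderiv ℝ (fun y => fderiv ℝ f y Complex.I) x Complex.I := by
  have hd : DifferentiableAt ℝ (fderiv ℝ f) x :=
    ((hf.fderiv_right (m := 1) (by norm_num)).differentiable (by norm_num)) x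
  rw [laplacian_eq_iteratedFDeriv_complexPlane]
  simp only [iteratedFDeriv_two_apply]
  rw [fderiv_clm_apply hd (by fun_prop), fderiv_clm_apply hd (by fun_prop)]
  simp

/-- Integration by parts in one direction, twice. -/
lemma ibp_dir {w φ : ℂ → ℝ} (hw : ContDiff ℝ 2 w) (hφ : ContDiff ℝ 2 φ)
    (hc : HasCompactSupport φ) (v : ℂ) :
    ∫ x, w x * fderiv ℝ (fun y => fderiv ℝ φ y v) x v
      = ∫ x, fderiv ℝ (fun y => fderiv ℝ w y v) x v * φ x := by
  have hw1 : ContDiff ℝ 1 (fun y => fderiv ℝ w y v) :=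
    (hw.fderiv_right (m := 1) (by norm_num)).clm_apply contDiff_const
  have hφ1 : ContDiff ℝ 1 (fun y => fderiv ℝ φ y v) :=
    (hφ.fderiv_right (m := 1) (by norm_num)).clm_apply contDiff_const
  have hw2 : Continuous (fun y => fderiv ℝ (fun z => fderiv ℝ w z v) y v) :=
    (hw1.continuous_fderiv (by norm_num)).clm_apply continuous_const
  have hφ2 : Continuous (fun y => fderiv ℝ (fun z => fderiv ℝ φ z v) y v) :=
    (hφ1.continuous_fderiv (by norm_num)).clm_apply continuous_const
  have hcs1 : HasCompactSupport (fun y => fderiv ℝ φ y v) := hc.fderiv_apply (𝕜 := ℝ) v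
  have hcs2 : HasCompactSupport (fun y => fderiv ℝ (fun z => fderiv ℝ φ z v) y v) :=
    hcs1.fderiv_apply (𝕜 := ℝ) v
  have e1 : ∫ x, w x * fderiv ℝ (fun y => fderiv ℝ φ y v) x v
      = - ∫ x, fderiv ℝ w x v * fderiv ℝ φ x v := by
    refine integral_mul_fderiv_eq_neg_fderiv_mul_of_integrable ?_ ?_ ?_ ?_ ?_
    · exact (hw1.continuous.mul hφ1.continuous).integrable_of_hasCompactSupport hcs1.mul_left
    · exact (hw.continuous.mul hφ2).integrable_of_hasCompactSupport hcs2.mul_left
    · exact (hw.continuous.mul hφ1.continuous).integrable_of_hasCompactSupport hcs1.mul_left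
    · exact fun x _ => (hw.differentiable (by norm_num)) x
    · exact fun x _ => (hφ1.differentiable (by norm_num)) x
  have e2 : ∫ x, fderiv ℝ w x v * fderiv ℝ φ x v
      = - ∫ x, fderiv ℝ (fun y => fderiv ℝ w y v) x v * φ x := by
    refine integral_mul_fderiv_eq_neg_fderiv_mul_of_integrable (f := fun y => fderiv ℝ w y v)
      (g := φ) ?_ ?_ ?_ ?_ ?_
    · exact (hw2.mul hφ.continuous).integrable_of_hasCompactSupport hc.mul_left
    · exact (hw1.continuous.mul hφ1.continuous).integrable_of_hasCompactSupport hcs1.mul_left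
    · exact (hw1.continuous.mul hφ.continuous).integrable_of_hasCompactSupport hc.mul_left
    · exact fun x _ => (hw1.differentiable (by norm_num)) x
    · exact fun x _ => (hφ.differentiable (by norm_num)) x
  rw [e1, e2, neg_neg]

/-- Green's formula `∫ w Δφ = ∫ (Δw) φ` for smooth `w` and a test function `φ`. -/
lemma integral_mul_laplacian {w φ : ℂ → ℝ} (hw : ContDiff ℝ 2 w) (hφ : ContDiff ℝ 2 φ)
    (hc : HasCompactSupport φ) :
    ∫ x, w x * Δ φ x = ∫ x, Δ w x * φ x := by
  have key : ∀ v : ℂ, ContDiff ℝ 1 (fun y => fderiv ℝ w y v) := fun v =>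
    (hw.fderiv_right (m := 1) (by norm_num)).clm_apply contDiff_const
  have keyφ : ∀ v : ℂ, ContDiff ℝ 1 (fun y => fderiv ℝ φ y v) := fun v =>
    (hφ.fderiv_right (m := 1) (by norm_num)).clm_apply contDiff_const
  have i1 : ∀ v : ℂ, Integrable (fun x => w x * fderiv ℝ (fun y => fderiv ℝ φ y v) x v) :=
    fun v => (hw.continuous.mul (((keyφ v).continuous_fderiv (by norm_num)).clm_apply
      continuous_const)).integrable_of_hasCompactSupport
      ((hc.fderiv_apply (𝕜 := ℝ) v).fderiv_apply (𝕜 := ℝ) v).mul_left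
  have i2 : ∀ v : ℂ, Integrable (fun x => fderiv ℝ (fun y => fderiv ℝ w y v) x v * φ x) :=
    fun v => ((((key v).continuous_fderiv (by norm_num)).clm_apply
      continuous_const).mul hφ.continuous).integrable_of_hasCompactSupport hc.mul_left
  have h1 : ∫ x, w x * Δ φ x = (∫ x, w x * fderiv ℝ (fun y => fderiv ℝ φ y 1) x 1)
      + ∫ x, w x * fderiv ℝ (fun y => fderiv ℝ φ y Complex.I) x Complex.I := by
    rw [← integral_add (i1 1) (i1 Complex.I)]
    refine integral_congr_ae (Eventually.of_forall fun x => ?_)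
    simp only [laplacian_eq_dir hφ x]
    ring
  have h2 : ∫ x, Δ w x * φ x = (∫ x, fderiv ℝ (fun y => fderiv ℝ w y 1) x 1 * φ x)
      + ∫ x, fderiv ℝ (fun y => fderiv ℝ w y Complex.I) x Complex.I * φ x := by
    rw [← integral_add (i2 1) (i2 Complex.I)]
    refine integral_congr_ae (Eventually.of_forall fun x => ?_)
    simp only [laplacian_eq_dir hw x]
    ring
  rw [h1, h2, ibp_dir hw hφ hc 1, ibp_dir hw hφ hc Complex.I]

/-- Derivative along a real line of a holomorphic function. -/
lemma hasDerivAt_line {G : ℂ → ℂ} {G' z : ℂ} (hG : HasDerivAt G G' z) (v : ℂ) :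
    HasDerivAt (fun t : ℝ => G (z + t * v)) (G' * v) 0 := by
  have h1 : HasDerivAt (fun t : ℂ => z + t * v) v 0 := by
    simpa using ((hasDerivAt_id (0 : ℂ)).mul_const v).const_add z
  have h2 : HasDerivAt (fun t : ℂ => G (z + t * v)) (G' * v) ((0 : ℝ) : ℂ) := by
    have h3 : HasDerivAt G G' (z + ((0 : ℝ) : ℂ) * v) := by simpa using hG
    have h1' : HasDerivAt (fun t : ℂ => z + t * v) v ((0 : ℝ) : ℂ) := by simpa using h1
    exact HasDerivAt.comp (h₂ := G) (h := fun t : ℂ => z + t * v) _ h3 h1'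
  exact h2.comp_ofReal

lemma hasDerivAt_line_re {G : ℂ → ℂ} {G' z : ℂ} (hG : HasDerivAt G G' z) (v : ℂ) :
    HasDerivAt (fun t : ℝ => (G (z + t * v)).re) ((G' * v).re) 0 :=
  Complex.reCLM.hasFDerivAt.comp_hasDerivAt 0 (hasDerivAt_line hG v)

lemma hasDerivAt_line_im {G : ℂ → ℂ} {G' z : ℂ} (hG : HasDerivAt G G' z) (v : ℂ) :
    HasDerivAt (fun t : ℝ => (G (z + t * v)).im) ((G' * v).im) 0 :=
  Complex.imCLM.hasFDerivAt.comp_hasDerivAt 0 (hasDerivAt_line hG v)

lemma fderiv_apply_of_line {f : ℂ → ℝ} {z v : ℂ} (hf : DifferentiableAt ℝ f z) {d : ℝ}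
    (hd : HasDerivAt (fun t : ℝ => f (z + t * v)) d 0) : fderiv ℝ f z v = d := by
  have h1 : HasDerivAt (fun t : ℝ => z + t * v) v 0 := by
    simpa using hasDerivAt_line (hasDerivAt_id z) v
  have h2 : HasDerivAt (fun t : ℝ => f (z + t * v)) (fderiv ℝ f z v) 0 := by
    have h3 : HasFDerivAt f (fderiv ℝ f z) (z + ((0 : ℝ) : ℂ) * v) := by simpa using hf.hasFDerivAt
    exact h3.comp_hasDerivAt 0 h1
  exact h2.unique hd

/-- If `F` is entire with derivatives `F'`, `F''` and `h` is a function of one real variable, then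
`Δ (h ∘ |F|²) = 4 |F'|² (ρ h''(ρ) + h'(ρ))` at `ρ = |F|²`. -/
lemma laplacian_comp_normSq {F F' F'' : ℂ → ℂ} (hF : ∀ z, HasDerivAt F (F' z) z)
    (hF' : ∀ z, HasDerivAt F' (F'' z) z) {h h' h'' : ℝ → ℝ}
    (hh : ∀ ρ, 0 ≤ ρ → HasDerivAt h (h' ρ) ρ) (hh' : ∀ ρ, 0 ≤ ρ → HasDerivAt h' (h'' ρ) ρ)
    (hs : ContDiff ℝ 2 (fun z => h (Complex.normSq (F z)))) (x : ℂ) :
    Δ (fun z => h (Complex.normSq (F z))) x
      = 4 * Complex.normSq (F' x) *
        (Complex.normSq (F x) * h'' (Complex.normSq (F x)) + h' (Complex.normSq (F x))) := by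
  -- first derivative
  have hρ : ∀ z v : ℂ, HasDerivAt (fun t : ℝ => Complex.normSq (F (z + t * v)))
      (2 * ((F z).re * (F' z * v).re + (F z).im * (F' z * v).im)) 0 := by
    intro z v
    have h1 := (hasDerivAt_line_re (hF z) v)
    have h2 := (hasDerivAt_line_im (hF z) v)
    have h3 := (h1.mul h1).add (h2.mul h2)
    have h4 : (fun t : ℝ => Complex.normSq (F (z + t * v))) =
        (fun t : ℝ => (F (z + t * v)).re * (F (z + t * v)).re)
          + fun t : ℝ => (F (z + t * v)).im * (F (z + t * v)).im := by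
      funext t
      simp [Complex.normSq_apply]
    rw [h4]
    refine h3.congr_deriv ?_
    simp only [Complex.ofReal_zero, zero_mul, add_zero]
    ring
  have h1 : ∀ z v : ℂ, fderiv ℝ (fun z => h (Complex.normSq (F z))) z v
      = h' (Complex.normSq (F z)) *
        (2 * ((F z).re * (F' z * v).re + (F z).im * (F' z * v).im)) := by
    intro z v
    refine fderiv_apply_of_line ((hs.differentiable (by norm_num)) z) ?_
    have h2 : HasDerivAt h (h' (Complex.normSq (F z)))
        (Complex.normSq (F (z + ((0 : ℝ) : ℂ) * v))) := by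
      simpa using hh _ (Complex.normSq_nonneg _)
    exact h2.comp 0 (hρ z v)
  have h2 : ∀ z v : ℂ, fderiv ℝ (fun y => fderiv ℝ (fun z => h (Complex.normSq (F z))) y v) z v
      = h'' (Complex.normSq (F z)) *
        (2 * ((F z).re * (F' z * v).re + (F z).im * (F' z * v).im)) ^ 2
        + h' (Complex.normSq (F z)) * (2 * ((F' z * v).re * (F' z * v).re
          + (F z).re * (F'' z * v * v).re + (F' z * v).im * (F' z * v).im
          + (F z).im * (F'' z * v * v).im)) := by
    intro z v
    have hd : DifferentiableAt ℝ (fun y => fderiv ℝ (fun z => h (Complex.normSq (F z))) y v) z :=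
      (((hs.fderiv_right (m := 1) (by norm_num)).clm_apply contDiff_const).differentiable
        (by norm_num)) z
    refine fderiv_apply_of_line hd ?_
    simp only [h1]
    have g1 : HasDerivAt h' (h'' (Complex.normSq (F z)))
        (Complex.normSq (F (z + ((0 : ℝ) : ℂ) * v))) := by
      simpa using hh' _ (Complex.normSq_nonneg _)
    have g2 := g1.comp 0 (hρ z v)
    have g3 := hasDerivAt_line_re (hF z) v
    have g4 := hasDerivAt_line_im (hF z) v
    have hFv : HasDerivAt (fun y => F' y * v) (F'' z * v) z := (hF' z).mul_const v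
    have g5 := hasDerivAt_line_re hFv v
    have g6 := hasDerivAt_line_im hFv v
    have g7 := g2.mul (((g3.mul g5).add (g4.mul g6)).const_mul 2)
    refine g7.congr_deriv ?_
    simp only [Complex.ofReal_zero, zero_mul, add_zero, Function.comp, Pi.add_apply, Pi.mul_apply]
    ring
  rw [laplacian_eq_dir hs, h2 x 1, h2 x Complex.I]
  simp only [Complex.normSq_apply, mul_one, Complex.mul_re, Complex.mul_im, Complex.I_re,
    Complex.I_im, mul_zero, zero_sub, add_zero]
  ring

end Run7.h501.RadSym
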