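import Pool.Agent.Run7.h501.RadSym.Fund
import Pool.Agent.Run7.h501.RadSym.Defs

open MeasureTheory Filter Topology Set InnerProductSpace
open scoped Laplacian ContDiff

namespace Run7.h501.RadSym

/-- A function `2N log |x| + w` with `w` smooth solves the equation in the sense of distributions
once `Δw = -p(|x|) q(e^u)` holds pointwise away from the origin. -/
theorem isSolution_of {N : ℝ} {p q : ℝ → ℝ} {w : ℂ → ℝ} (hw : ContDiff ℝ ∞ w)
    (h : ∀ x : ℂ, x ≠ 0 → p ‖x‖ * q (Real.exp (2 * N * Real.log ‖x‖ + w x)) = - Δ w x) :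
    IsSolution N p q (fun x => 2 * N * Real.log ‖x‖ + w x) := by
  have hw2 : ContDiff ℝ 2 w := by exact_mod_cast contDiff_infty.1 hw 2
  have hne : ∀ᵐ x : ℂ, x ≠ 0 := by simp [ae_iff]
  refine ⟨?_, ?_, ?_, ?_⟩
  · exact (log_norm_locallyIntegrable.smul (2 * N)).add hw.continuous.locallyIntegrable
  · intro x hx
    have hx' : x ≠ 0 := hx
    have h1 : ContDiffAt ℝ ∞ (fun x : ℂ => ‖x‖) x := contDiffAt_norm ℝ hx'
    exact ((contDiffAt_const.mul (h1.log (norm_ne_zero_iff.2 hx'))).add
      hw.contDiffAt).contDiffWithinAt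
  · refine ((laplacian_continuous hw2).neg.locallyIntegrable (μ := volume)).congr ?_
    exact hne.mono fun x hx => (h x hx).symm
  · intro φ hφ hc
    have hφ2 : ContDiff ℝ 2 φ := by exact_mod_cast contDiff_infty.1 hφ 2
    have hΔc := laplacian_continuous hφ2
    have hΔs := laplacian_hasCompactSupport hc
    have i1 : Integrable (fun x : ℂ => Real.log ‖x‖ * Δ φ x) :=
      log_norm_locallyIntegrable.integrable_smul_right_of_hasCompactSupport hΔc hΔs
    have i2 : Integrable (fun x : ℂ => w x * Δ φ x) :=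
      (hw.continuous.mul hΔc).integrable_of_hasCompactSupport hΔs.mul_left
    have e1 : ∫ x : ℂ, (2 * N * Real.log ‖x‖ + w x) * Δ φ x
        = 2 * N * (2 * Real.pi * φ 0) + ∫ x : ℂ, Δ w x * φ x := by
      rw [← integral_mul_laplacian hw2 hφ2 hc, ← log_test hφ2 hc, ← integral_const_mul,
        ← integral_add (i1.const_mul _) i2]
      refine integral_congr_ae (Eventually.of_forall fun x => ?_)
      simp only
      ring
    have e2 : ∫ x : ℂ, p ‖x‖ * q (Real.exp (2 * N * Real.log ‖x‖ + w x)) * φ x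
        = - ∫ x : ℂ, Δ w x * φ x := by
      rw [← integral_neg]
      refine integral_congr_ae (hne.mono fun x hx => ?_)
      simp only [h x hx]
      ring
    rw [e1, e2]
    ring

end Run7.h501.RadSym
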